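import Pool.Agent.SLE.Full

/-!
# `E(l,m,n)` is never shortlex automatic

The negated form of Q1, for all triples and all orders of the four letters.
-/

namespace Pool.Agent.Results.MP_d768aa_al.NeverShortlexAutomatic

open Pool.Agent.SLE

/-- For all positive integers `l, m, n` with `1/l + 1/m + 1/n < 1`, the group
`E(l,m,n) = ⟨a, b ∣ a^l = 1, (ab)^m = b^n⟩` is not shortlex automatic with respect to the
generators `a, b` and their inverses, for any order of the four letters `a, a⁻¹, b, b⁻¹`. -/
theorem result (l m n : ℕ) (hl : 0 < l) (hm : 0 < m) (hn : 0 < n)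
    (h : (1 / l + 1 / m + 1 / n : ℚ) < 1)
    (lt : Letter → Letter → Prop) [IsStrictTotalOrder Letter lt] :
    ¬ ShortlexAutomatic l m n lt := fun hs =>
  not_finiteDiff_full hl hm hn h lt (finiteDiff_of_shortlexAutomatic l m n lt hs)

end Pool.Agent.Results.MP_d768aa_al.NeverShortlexAutomatic
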